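import Mathlib
import Pool.Agent.Helper706.CMA.Main
import Pool.Agent.Helper706.CMA.FrameHess

/-!
# Liouville theorem for the complex Monge-Ampere equation with two-sided quadratic bounds

Strategy.  Write `τ`-circle averages `w = cav u τ - u ≥ 0`.  With `L = u^{i \bar j} ∂_i ∂_{\bar j}`
one has `L w ≥ 0`, while the two-sided bound makes `F = A u^p - (1+|z|^2)^2 u^(p-2)` a barrier for
the *linear* operator `L`.  The Aleksandrov-Bakelman-Pucci estimate, the `L^1`-duality bound for `w` and
an iteration give `w ≤ K |τ|^2` on the whole space, hence a global bound for the complex Hessian.  Then `L` is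
uniformly elliptic, the Krylov-Safonov ink-spots argument shows that `w` is close to its supremum on
most of every big ball, so the averages of `u_{i \bar j}` over big balls equal pointwise upper bounds,
and the determinant condition forces `u_{i \bar j}` to be constant.
-/

set_option autoImplicit false

namespace Pool.Agent.Results.MP_ccae28_an.QuadraticLiouville

open scoped ComplexOrder

/-- The Wirtinger derivative `∂f/∂z_k = (1/2) (∂f/∂x_k - i ∂f/∂y_k)` of a complex valued function on `ℂⁿ`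
(derivatives along the real directions `e_k` and `i e_k`). -/
noncomputable def dz {n : ℕ} (k : Fin n) (f : EuclideanSpace ℂ (Fin n) → ℂ) (z : EuclideanSpace ℂ (Fin n)) : ℂ :=
  (1 / 2) * (fderiv ℝ f z (EuclideanSpace.single k (1 : ℂ))
    - Complex.I * fderiv ℝ f z (EuclideanSpace.single k Complex.I))

/-- The Wirtinger derivative `∂f/∂\bar z_k = (1/2) (∂f/∂x_k + i ∂f/∂y_k)`. -/
noncomputable def dzbar {n : ℕ} (k : Fin n) (f : EuclideanSpace ℂ (Fin n) → ℂ) (z : EuclideanSpace ℂ (Fin n)) : ℂ :=
  (1 / 2) * (fderiv ℝ f z (EuclideanSpace.single k (1 : ℂ))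
    + Complex.I * fderiv ℝ f z (EuclideanSpace.single k Complex.I))

/-- The complex Hessian `u_{i \bar j} = ∂² u / ∂z_i ∂\bar z_j` of a real valued function on `ℂⁿ`. -/
noncomputable def complexHessian {n : ℕ} (u : EuclideanSpace ℂ (Fin n) → ℝ) (z : EuclideanSpace ℂ (Fin n)) :
    Matrix (Fin n) (Fin n) ℂ :=
  Matrix.of fun i j => dz i (fun w => dzbar j (fun x => (u x : ℂ)) w) z

/-- Every `C²` plurisubharmonic solution `u` of `det (u_{i \bar j}) = 1` on `ℂⁿ` (`n ≥ 1`) with
`c (1+|z|²) ≤ u(z) ≤ C (1+|z|²)` for constants `0 < c ≤ C` is a polynomial of degree at most `2` in the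
real coordinates. -/
theorem result (n : ℕ) (hn : 1 ≤ n) (u : EuclideanSpace ℂ (Fin n) → ℝ) (hu : ContDiff ℝ 2 u)
    (hpsh : ∀ z, (complexHessian u z).PosSemidef) (hdet : ∀ z, (complexHessian u z).det = 1)
    (c C : ℝ) (hc : 0 < c) (hcC : c ≤ C)
    (hb : ∀ z, c * (1 + ‖z‖ ^ 2) ≤ u z ∧ u z ≤ C * (1 + ‖z‖ ^ 2)) :
    ∃ q : MvPolynomial (Fin n ⊕ Fin n) ℝ, q.totalDegree ≤ 2 ∧
      ∀ z : EuclideanSpace ℂ (Fin n),
        u z = MvPolynomial.eval (Sum.elim (fun k => (z k).re) (fun k => (z k).im)) q :=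
  CMAL.main_quadratic (Nat.lt_of_succ_le hn) u hu
    (fun z => CMAL.frame_of_hess u hu z (hpsh z) (hdet z)) c C hc hcC
    (fun z => (hb z).1) (fun z => (hb z).2)

end Pool.Agent.Results.MP_ccae28_an.QuadraticLiouville
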